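import Pool.Agent.Helper909.GeoHyperMain

set_option autoImplicit false

namespace Pool.Agent.Results.MP_1f07eb_co.TwoDisjoint

open Finset Pool.Agent.Helper909.GeoHyper

/-- the standard lift to the affine hyperplane at height one -/
def lift {d : ℕ} (x : EuclideanSpace ℝ (Fin d)) : EuclideanSpace ℝ (Fin d) × ℝ := (x, 1)

theorem lift_li {d : ℕ} (S : Finset (EuclideanSpace ℝ (Fin d)))
    (h : AffineIndependent ℝ (fun x : S => (x : EuclideanSpace ℝ (Fin d)))) :
    LinearIndependent ℝ (fun x : S => lift (x : EuclideanSpace ℝ (Fin d))) := by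
  rw [linearIndependent_iff']
  intro s g hg i hi
  rw [affineIndependent_iff] at h
  have h1 := congrArg Prod.fst hg
  have h2 := congrArg Prod.snd hg
  simp only [lift, Prod.fst_sum, Prod.snd_sum, Prod.smul_fst, Prod.smul_snd, Prod.fst_zero,
    Prod.snd_zero, smul_eq_mul, mul_one] at h1 h2
  exact h s g h2 h1 i hi

theorem disjoint_hulls {d : ℕ} (α β X Y : Finset (EuclideanSpace ℝ (Fin d)))
    (hαβ : Disjoint α β)
    (hli : LinearIndependent ℝ (fun x : (α ∪ β : Finset _) => lift (x : EuclideanSpace ℝ (Fin d))))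
    (f : (EuclideanSpace ℝ (Fin d) × ℝ) →ₗ[ℝ] ℝ) (hf : ∀ a ∈ α ∪ β, f (lift a) = 0)
    (hX : ∀ x ∈ X, 0 < f (lift x)) (hY : ∀ y ∈ Y, f (lift y) < 0) :
    Disjoint (convexHull ℝ ((α ∪ X : Finset _) : Set (EuclideanSpace ℝ (Fin d))))
      (convexHull ℝ ((β ∪ Y : Finset _) : Set (EuclideanSpace ℝ (Fin d)))) := by
  classical
  rw [Set.disjoint_left]
  intro z hz1 hz2
  rw [Finset.mem_convexHull'] at hz1 hz2
  obtain ⟨w1, hw1, hs1, hz1⟩ := hz1
  obtain ⟨w2, hw2, hs2, hz2⟩ := hz2
  have hl1 : lift z = ∑ x ∈ α ∪ X, w1 x • lift x := by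
    apply Prod.ext
    · simp only [lift, Prod.fst_sum, Prod.smul_fst]; exact hz1.symm
    · simp only [lift, Prod.snd_sum, Prod.smul_snd, smul_eq_mul, mul_one]; exact hs1.symm
  have hl2 : lift z = ∑ x ∈ β ∪ Y, w2 x • lift x := by
    apply Prod.ext
    · simp only [lift, Prod.fst_sum, Prod.smul_fst]; exact hz2.symm
    · simp only [lift, Prod.snd_sum, Prod.smul_snd, smul_eq_mul, mul_one]; exact hs2.symm
  have hf1 : f (lift z) = ∑ x ∈ α ∪ X, w1 x * f (lift x) := by
    rw [hl1, map_sum]; simp only [map_smul, smul_eq_mul]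
  have hf2 : f (lift z) = ∑ x ∈ β ∪ Y, w2 x * f (lift x) := by
    rw [hl2, map_sum]; simp only [map_smul, smul_eq_mul]
  have hnn1 : ∀ x ∈ α ∪ X, 0 ≤ w1 x * f (lift x) := by
    intro x hx
    rcases Finset.mem_union.1 hx with h | h
    · rw [hf x (Finset.mem_union_left _ h), mul_zero]
    · exact mul_nonneg (hw1 x hx) (hX x h).le
  have hnn2 : ∀ x ∈ β ∪ Y, w2 x * f (lift x) ≤ 0 := by
    intro x hx
    rcases Finset.mem_union.1 hx with h | h
    · rw [hf x (Finset.mem_union_right _ h), mul_zero]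
    · exact mul_nonpos_of_nonneg_of_nonpos (hw2 x hx) (hY x h).le
  have h0 : f (lift z) = 0 := by
    apply le_antisymm
    · rw [hf2]; exact Finset.sum_nonpos hnn2
    · rw [hf1]; exact Finset.sum_nonneg hnn1
  have hz1' : ∀ x ∈ α ∪ X, x ∉ α → w1 x = 0 := by
    intro x hx hxα
    have h1 := (Finset.sum_eq_zero_iff_of_nonneg hnn1).1 (hf1.symm.trans h0) x hx
    have h2 := (Finset.mem_union.1 hx).resolve_left hxα
    exact (mul_eq_zero.1 h1).resolve_right (hX x h2).ne'
  have hz2' : ∀ x ∈ β ∪ Y, x ∉ β → w2 x = 0 := by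
    intro x hx hxβ
    have h1 := (Finset.sum_eq_zero_iff_of_nonpos hnn2).1 (hf2.symm.trans h0) x hx
    have h2 := (Finset.mem_union.1 hx).resolve_left hxβ
    exact (mul_eq_zero.1 h1).resolve_right (hY x h2).ne
  have hr1 : lift z = ∑ x ∈ α, w1 x • lift x := by
    rw [hl1]
    symm
    apply Finset.sum_subset Finset.subset_union_left
    intro x hx hxα
    rw [hz1' x hx hxα, zero_smul]
  have hr2 : lift z = ∑ x ∈ β, w2 x • lift x := by
    rw [hl2]
    symm
    apply Finset.sum_subset Finset.subset_union_left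
    intro x hx hxβ
    rw [hz2' x hx hxβ, zero_smul]
  have hw : ∀ x ∈ α ∪ β, (if x ∈ α then w1 x else - w2 x) = 0 := by
    intro x hx
    refine linearIndependent_iff'.1 hli Finset.univ
      (fun y => if (y : EuclideanSpace ℝ (Fin d)) ∈ α then w1 y else - w2 y) ?_ ⟨x, hx⟩
      (Finset.mem_univ _)
    rw [Finset.sum_coe_sort (α ∪ β) (fun y => (if y ∈ α then w1 y else - w2 y) • lift y),
      Finset.sum_union hαβ]
    rw [Finset.sum_congr rfl (g := fun y => w1 y • lift y) (fun y hy => by rw [if_pos hy]), ← hr1]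
    rw [Finset.sum_congr rfl (s₁ := β) (g := fun y => -(w2 y • lift y)) (fun y hy => by
      rw [if_neg (Finset.disjoint_right.1 hαβ hy), neg_smul]), Finset.sum_neg_distrib, ← hr2,
      add_neg_cancel]
  have hall : ∀ x ∈ α ∪ X, w1 x = 0 := by
    intro x hx
    by_cases hxα : x ∈ α
    · have := hw x (Finset.mem_union_left _ hxα)
      rwa [if_pos hxα] at this
    · exact hz1' x hx hxα
  rw [Finset.sum_eq_zero hall] at hs1
  exact one_ne_zero hs1.symm

/-- **Result.**  For every dimension `d ≥ 2`: a family of `(d-1)`-simplices spanned by `n` points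
in general position in `ℝ^d`, no two of whose members are disjoint, has at most
`4 (2^(d-1) - 1) * (n choose (d-1))` members (so the case `k = 2` of the conjecture holds in all
dimensions); in particular at most `2^(d+1) * n^(d-1)`. -/
theorem result (d : ℕ) (hd : 2 ≤ d) (V : Finset (EuclideanSpace ℝ (Fin d)))
    (hV : ∀ S ⊆ V, S.card ≤ d + 1 →
      AffineIndependent ℝ (fun x : S => (x : EuclideanSpace ℝ (Fin d))))
    (E : Finset (Finset (EuclideanSpace ℝ (Fin d))))
    (hE : ∀ e ∈ E, e ⊆ V ∧ e.card = d)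
    (hno : ¬ ∃ F ⊆ E, F.card = 2 ∧
      (F : Set (Finset (EuclideanSpace ℝ (Fin d)))).Pairwise
        (fun e f => Disjoint (convexHull ℝ (e : Set (EuclideanSpace ℝ (Fin d))))
          (convexHull ℝ (f : Set (EuclideanSpace ℝ (Fin d)))))) :
    E.card ≤ 4 * (2 ^ (d - 1) - 1) * V.card.choose (d - 1) ∧
      (E.card : ℝ) ≤ 2 ^ (d + 1) / (d - 1).factorial * (V.card : ℝ) ^ (d - 1) := by
  classical
  have h1 : E.card ≤ 4 * (2 ^ (d - 1) - 1) * V.card.choose (d - 1) := by
    refine card_le_abstract (L := EuclideanSpace ℝ (Fin d) × ℝ) lift V d hd ?_ ?_ E hE ?_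
    · rw [Module.finrank_prod, finrank_euclideanSpace, Fintype.card_fin, Module.finrank_self]
    · intro S hS hc
      exact lift_li S (hV S hS hc)
    · intro α β X Y hαβ h1 h2 h3 f hf hX hY
      have hdis := disjoint_hulls α β X Y hαβ
        (lift_li _ (hV _ (hE _ h1).1 (by rw [(hE _ h1).2]; omega))) f hf hX hY
      apply hno
      have hne : α ∪ X ≠ β ∪ Y := by
        intro h
        rw [h, disjoint_self, Set.bot_eq_empty, convexHull_eq_empty] at hdis
        have h4 : (β ∪ Y).card = 0 := by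
          rw [Finset.card_eq_zero, ← Finset.coe_eq_empty]; exact hdis
        rw [(hE _ h3).2] at h4
        omega
      refine ⟨{α ∪ X, β ∪ Y}, ?_, Finset.card_pair hne, ?_⟩
      · intro e he
        rw [Finset.mem_insert, Finset.mem_singleton] at he
        rcases he with rfl | rfl
        · exact h2
        · exact h3
      · intro e he f hf hef
        rw [Finset.mem_coe, Finset.mem_insert, Finset.mem_singleton] at he hf
        rcases he with rfl | rfl <;> rcases hf with rfl | rfl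
        · exact absurd rfl hef
        · exact hdis
        · exact hdis.symm
        · exact absurd rfl hef
  refine ⟨h1, ?_⟩
  have h2 : ((4 * (2 ^ (d - 1) - 1) : ℕ) : ℝ) ≤ 2 ^ (d + 1) := by
    have : 4 * (2 ^ (d - 1) - 1) ≤ 2 ^ (d + 1) := by
      obtain ⟨e, rfl⟩ : ∃ e, d = e + 1 := ⟨d - 1, by omega⟩
      rw [Nat.add_sub_cancel, pow_succ, pow_succ]
      omega
    exact_mod_cast this
  have h3 := Nat.choose_le_pow_div (α := ℝ) (d - 1) V.card
  calc (E.card : ℝ) ≤ ((4 * (2 ^ (d - 1) - 1) * V.card.choose (d - 1) : ℕ) : ℝ) := by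
        exact_mod_cast h1
    _ = ((4 * (2 ^ (d - 1) - 1) : ℕ) : ℝ) * (V.card.choose (d - 1) : ℝ) := by push_cast; ring
    _ ≤ 2 ^ (d + 1) * ((V.card : ℝ) ^ (d - 1) / (d - 1).factorial) := by
        apply mul_le_mul h2 h3 (Nat.cast_nonneg _) (by positivity)
    _ = 2 ^ (d + 1) / (d - 1).factorial * (V.card : ℝ) ^ (d - 1) := by ring

end Pool.Agent.Results.MP_1f07eb_co.TwoDisjoint
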